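import Pool.Agent.P8H6.Irr.Final

/-!
# Chowla's conjecture for products of linear factors: Bohr sets

Let `f ∈ ℤ[T]` be a polynomial whose roots are rational and let `α` be irrational. At almost all scales the sum of
`λ(f(v))` over the `v` of an arithmetic progression for which the fractional part of `α v` is in an interval `[a, b)`
is `b - a` times the full sum over the progression, up to an arbitrarily small proportion of the scale.

Proof: the entropy decrement argument (`Pool.Agent.Y958.TC`, starting files: natural averages along ultrafilters) for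
the alphabet of the values of `λ` and of the digits `⌊α (n + 1)⌋ - ⌊α n⌋`; see `Pool.Agent.P8H6.Irr`.
-/

set_option autoImplicit false

namespace Pool.Agent.Results.MP_d639b3_nt.BohrSets

open Finset Filter Topology Polynomial

open Classical in
/-- `E` has logarithmic density zero. -/
def LogDensityZero (E : Set ℕ) : Prop :=
  Tendsto (fun X : ℕ => (∑ n ∈ Icc 1 X, if n ∈ E then (1 : ℝ) / n else 0) / Real.log X) atTop (𝓝 0)

/-- The Liouville function at a nonzero integer. -/
def lam (n : ℤ) : ℤ := (-1) ^ ArithmeticFunction.cardFactors n.natAbs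

/-- The sum of `λ(f(v))` over the `v` of the arithmetic progression `{r + q t : t ∈ ℤ}` with `|v| ≤ X`. Points where
`f(v) = 0` are omitted. -/
noncomputable def S (f : ℤ[X]) (q : ℕ) (r : ℤ) (X : ℕ) : ℤ :=
  ∑ v ∈ (Icc (-(X : ℤ)) X).filter (fun v => v ≡ r [ZMOD q] ∧ f.eval v ≠ 0), lam (f.eval v)

open Classical in
/-- The part of this sum which belongs to the `v` for which the fractional part of `α v` is in `[a, b)`. -/
noncomputable def SB (f : ℤ[X]) (q : ℕ) (r : ℤ) (α a b : ℝ) (X : ℕ) : ℤ :=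
  ∑ v ∈ (Icc (-(X : ℤ)) X).filter (fun v => (v ≡ r [ZMOD q] ∧ f.eval v ≠ 0) ∧
    a ≤ Int.fract (α * v) ∧ Int.fract (α * v) < b), lam (f.eval v)

/-- Let `α 0, α 1, ...` be irrational numbers. There is a set `E` of logarithmic density zero such that for every
nonzero `f ∈ ℤ[T]` which is a product of linear factors over `ℚ`, every arithmetic progression `{r + q t}`, every
`α = α j` and every `ε > 0`, for all large `N` outside `E`, all `X ≤ N` and all `0 ≤ a ≤ b ≤ 1`:

the sum of `λ(f(v))` over the `v` of the progression with `|v| ≤ X` and `{α v} ∈ [a, b)` differs from `b - a` times the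
sum over all the `v` of the progression with `|v| ≤ X` by at most `ε N`. -/
theorem result (α : ℕ → ℝ) (hα : ∀ j, Irrational (α j)) :
    ∃ E : Set ℕ, LogDensityZero E ∧
      ∀ (j : ℕ) (f : ℤ[X]), f ≠ 0 → (f.map (Int.castRingHom ℚ)).Splits → ∀ (q : ℕ) (r : ℤ), 1 ≤ q →
        ∀ ε : ℝ, 0 < ε → ∃ N₀ : ℕ, ∀ N : ℕ, N₀ ≤ N → N ∉ E → ∀ X ≤ N, ∀ a b : ℝ, 0 ≤ a → a ≤ b → b ≤ 1 →
          |(SB f q r (α j) a b X : ℝ) - (b - a) * S f q r X| ≤ ε * N := by
  classical
  obtain ⟨E, hE, h1⟩ := Pool.Agent.P8H6.Irr.ex_all α hα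
  refine ⟨E, hE, fun j f hf hs q r hq ε hε => ?_⟩
  obtain ⟨d, A, B, s, hA, hs1, hval⟩ := Pool.Agent.P8H6.Irr.splits_val f hf hs
  obtain ⟨N₀, h2⟩ := Pool.Agent.P8H6.Irr.both (hα j) E (h1 j).1 (h1 j).2 d A B hA q hq r ε hε
  refine ⟨N₀, fun N hN hNE x hx a b ha hab hb => ?_⟩
  have h3 := h2 N hN hNE x hx a b ha hab hb
  -- the values of the Liouville function
  have hlam : ∀ v : ℤ, (if f.eval v ≠ 0 then lam (f.eval v) else 0) =
      s * Pool.Agent.P8H6.Irr.lamZ (∏ i, (A i * v + B i)) := by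
    intro v
    rw [← hval v]
    unfold Pool.Agent.P8H6.Irr.lamZ lam
    by_cases h : f.eval v = 0
    · simp [h]
    · simp [h]
  have e1 : (S f q r x : ℝ) = ∑ v ∈ (Icc (-(x : ℤ)) x).filter (fun v => v ≡ r [ZMOD q]),
      ((s : ℝ) * (Pool.Agent.P8H6.Irr.lamZ (∏ i, (A i * v + B i)) : ℝ)) := by
    have e0 : S f q r x = ∑ v ∈ (Icc (-(x : ℤ)) x).filter (fun v => v ≡ r [ZMOD q]),
        (if f.eval v ≠ 0 then lam (f.eval v) else 0) := by
      unfold S
      rw [← sum_filter, filter_filter]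
    rw [e0]
    push_cast
    refine sum_congr rfl fun v _ => ?_
    have h4 := hlam v
    have h5 : ((if f.eval v ≠ 0 then lam (f.eval v) else 0 : ℤ) : ℝ) =
        ((s * Pool.Agent.P8H6.Irr.lamZ (∏ i, (A i * v + B i)) : ℤ) : ℝ) := by rw [h4]
    push_cast at h5
    exact h5
  have e2 : (SB f q r (α j) a b x : ℝ) = ∑ v ∈ (Icc (-(x : ℤ)) x).filter (fun v => v ≡ r [ZMOD q]),
      ((s : ℝ) * (Pool.Agent.P8H6.Irr.lamZ (∏ i, (A i * v + B i)) : ℝ)) *
        (if a ≤ Int.fract (α j * v) ∧ Int.fract (α j * v) < b then 1 else 0) := by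
    have e0 : SB f q r (α j) a b x = ∑ v ∈ (Icc (-(x : ℤ)) x).filter (fun v => v ≡ r [ZMOD q]),
        (if a ≤ Int.fract (α j * v) ∧ Int.fract (α j * v) < b then
          (if f.eval v ≠ 0 then lam (f.eval v) else 0) else 0) := by
      unfold SB
      rw [← sum_filter, ← sum_filter, filter_filter, filter_filter]
      refine sum_congr (filter_congr fun v _ => ?_) fun _ _ => rfl
      tauto
    rw [e0]
    push_cast
    refine sum_congr rfl fun v _ => ?_
    have h4 := hlam v
    have h5 : ((if f.eval v ≠ 0 then lam (f.eval v) else 0 : ℤ) : ℝ) =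
        ((s * Pool.Agent.P8H6.Irr.lamZ (∏ i, (A i * v + B i)) : ℤ) : ℝ) := by rw [h4]
    push_cast at h5
    rw [← h5]
    by_cases h6 : a ≤ Int.fract (α j * v) ∧ Int.fract (α j * v) < b
    · simp [h6]
    · simp [h6]
  have e3 : (SB f q r (α j) a b x : ℝ) - (b - a) * S f q r x =
      s * ∑ v ∈ (Icc (-(x : ℤ)) x).filter (fun v => v ≡ r [ZMOD q]),
        Pool.Agent.P8H6.Irr.sm A B (α j) a b v := by
    rw [e1, e2, mul_sum, mul_sum, ← sum_sub_distrib]
    refine sum_congr rfl fun v _ => ?_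
    unfold Pool.Agent.P8H6.Irr.sm
    ring
  rw [e3, abs_mul]
  have hs2 : |(s : ℝ)| ≤ 1 := by exact_mod_cast hs1
  calc |(s : ℝ)| * |∑ v ∈ (Icc (-(x : ℤ)) x).filter (fun v => v ≡ r [ZMOD q]),
        Pool.Agent.P8H6.Irr.sm A B (α j) a b v| ≤ 1 * |∑ v ∈ (Icc (-(x : ℤ)) x).filter (fun v => v ≡ r [ZMOD q]),
        Pool.Agent.P8H6.Irr.sm A B (α j) a b v| := mul_le_mul_of_nonneg_right hs2 (abs_nonneg _)
    _ = _ := one_mul _
    _ ≤ ε * N := h3

end Pool.Agent.Results.MP_d639b3_nt.BohrSets
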