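import Pool.Agent.P8H6.Uni.Zed

/-!
# Chowla's conjecture for products of linear factors: polynomial phases, uniformly in the phase

Let `w(N) → ∞` be arbitrarily slow and let `f ∈ ℤ[T]` be a polynomial whose roots are rational. At almost all scales
`N` the sums of `λ(f(v)) e(P(v))` over the `v` of an arithmetic progression with `|v| ≤ X`, `X ≤ N`, are an arbitrarily
small proportion of `N`, uniformly over all real polynomials `P` of degree at most `d` whose coefficient of `x^d` is not
close to a rational number with denominator at most `w(N)`.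

Proof: the entropy decrement argument (`Pool.Agent.Y958.TC`, starting files: natural averages along ultrafilters) for
the alphabet of the values of `λ` and of the digits of a frequency which moves with the scale; see
`Pool.Agent.P8H6.Uni`. Packages by helper93 (equidistribution), helper52 (entropy of the digits, partial sums),
helper43 (van der Corput); the formulation for moving frequencies: helper70.
-/

set_option autoImplicit false

namespace Pool.Agent.Results.MP_d639b3_nt.PolynomialPhases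

open Finset Filter Topology Polynomial

open Classical in
/-- `E` has logarithmic density zero. -/
def LogDensityZero (E : Set ℕ) : Prop :=
  Tendsto (fun X : ℕ => (∑ n ∈ Icc 1 X, if n ∈ E then (1 : ℝ) / n else 0) / Real.log X) atTop (𝓝 0)

/-- `e(x) = exp (2 π i x)`. -/
noncomputable def e (x : ℝ) : ℂ := Complex.exp (2 * Real.pi * Complex.I * x)

/-- The Liouville function at a nonzero integer. -/
def lam (n : ℤ) : ℤ := (-1) ^ ArithmeticFunction.cardFactors n.natAbs

/-- The sum of `λ(f(v)) e(P(v))` over the `v` of the arithmetic progression `{r + q t : t ∈ ℤ}` with `|v| ≤ X`. Points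
where `f(v) = 0` are omitted. -/
noncomputable def S (f : ℤ[X]) (q : ℕ) (r : ℤ) (P : ℝ[X]) (X : ℕ) : ℂ :=
  ∑ v ∈ (Icc (-(X : ℤ)) X).filter (fun v => v ≡ r [ZMOD q] ∧ f.eval v ≠ 0), (lam (f.eval v) : ℂ) * e (P.eval (v : ℝ))

/-- `α` is on the minor arcs for the scale `N` and the level `w`: `N |q α - a| > w` for all `1 ≤ q ≤ w` and all
integers `a`. -/
def Minor (w N : ℕ) (α : ℝ) : Prop := ∀ q : ℕ, 1 ≤ q → q ≤ w → ∀ a : ℤ, (w : ℝ) < N * |q * α - a|

/-- Let `w(N) → ∞`. There is a set `E` of logarithmic density zero such that for every nonzero `f ∈ ℤ[T]` which is a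
product of linear factors over `ℚ`, every arithmetic progression `{r + q t}`, every `d ≥ 1` and every `ε > 0`, for all
large `N` outside `E`: for ALL real polynomials `P` of degree at most `d` such that the coefficient of `x^d` is on the
minor arcs for the level `w(N)`, and all `X ≤ N`, the sum of `λ(f(v)) e(P(v))` over the `v` of the progression with
`|v| ≤ X` is at most `ε N` in absolute value. -/
theorem result (w : ℕ → ℕ) (hw : Tendsto w atTop atTop) :
    ∃ E : Set ℕ, LogDensityZero E ∧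
      ∀ (f : ℤ[X]), f ≠ 0 → (f.map (Int.castRingHom ℚ)).Splits → ∀ (q : ℕ) (r : ℤ), 1 ≤ q → ∀ d : ℕ, 1 ≤ d →
        ∀ ε : ℝ, 0 < ε → ∃ N₀ : ℕ, ∀ N : ℕ, N₀ ≤ N → N ∉ E →
          ∀ P : ℝ[X], P.natDegree ≤ d → Minor (w N) N (P.coeff d) → ∀ X ≤ N, ‖S f q r P X‖ ≤ ε * N := by
  classical
  obtain ⟨E, hE, h1, -⟩ := Pool.Agent.P8H6.Uni.main_pol (fun _ => Pool.Agent.P8H6.Irr.lamN)
    (fun _ => Pool.Agent.P8H6.Irr.lamN_flip) w hw
  refine ⟨E, hE, fun f hf hs q r hq d hd ε hε => ?_⟩
  obtain ⟨k, A, B, s, hA, hs1, hval⟩ := Pool.Agent.P8H6.Irr.splits_val f hf hs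
  obtain ⟨N₀, h2⟩ := Pool.Agent.P8H6.Uni.both_pol w (fun N => Nat.sqrt (w N))
    (Pool.Agent.P8H6.Uni.sqrt_small hw) E h1 k A B hA q hq r d hd ε hε
  refine ⟨N₀, fun N hN hNE P hPd hPm x hx => ?_⟩
  have h3 := h2 N hN hNE P hPd hPm x hx
  -- the values of the Liouville function
  have hlam : ∀ v : ℤ, (if f.eval v ≠ 0 then lam (f.eval v) else 0) =
      s * Pool.Agent.P8H6.Irr.lamZ (∏ i, (A i * v + B i)) := by
    intro v
    rw [← hval v]
    unfold Pool.Agent.P8H6.Irr.lamZ lam
    by_cases h : f.eval v = 0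
    · simp [h]
    · simp [h]
  have e1 : S f q r P x = (s : ℂ) * ∑ v ∈ (Icc (-(x : ℤ)) x).filter (fun v => v ≡ r [ZMOD q]),
      Pool.Agent.P8H6.Uni.smp A B P v := by
    have e0 : S f q r P x = ∑ v ∈ (Icc (-(x : ℤ)) x).filter (fun v => v ≡ r [ZMOD q]),
        (if f.eval v ≠ 0 then (lam (f.eval v) : ℂ) * e (P.eval (v : ℝ)) else 0) := by
      unfold S
      rw [← sum_filter, filter_filter]
    rw [e0, mul_sum]
    refine sum_congr rfl fun v _ => ?_
    have h4 := hlam v
    have h5 : ((if f.eval v ≠ 0 then lam (f.eval v) else 0 : ℤ) : ℂ) =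
        ((s * Pool.Agent.P8H6.Irr.lamZ (∏ i, (A i * v + B i)) : ℤ) : ℂ) := by rw [h4]
    rw [Int.cast_mul] at h5
    unfold Pool.Agent.P8H6.Uni.smp
    rw [← mul_assoc, ← h5]
    by_cases h6 : f.eval v ≠ 0
    · rw [if_pos h6, if_pos h6]
      rfl
    · rw [if_neg h6, if_neg h6, Int.cast_zero, zero_mul]
  rw [e1, norm_mul, Complex.norm_intCast]
  have hs2 : |(s : ℝ)| ≤ 1 := by exact_mod_cast hs1
  calc |(s : ℝ)| * ‖∑ v ∈ (Icc (-(x : ℤ)) x).filter (fun v => v ≡ r [ZMOD q]), Pool.Agent.P8H6.Uni.smp A B P v‖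
      ≤ 1 * ‖∑ v ∈ (Icc (-(x : ℤ)) x).filter (fun v => v ≡ r [ZMOD q]), Pool.Agent.P8H6.Uni.smp A B P v‖ :=
        mul_le_mul_of_nonneg_right hs2 (norm_nonneg _)
    _ = _ := one_mul _
    _ ≤ ε * N := h3

end Pool.Agent.Results.MP_d639b3_nt.PolynomialPhases
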