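import Pool.Agent.P8H14.GL.R

/-!
# Chowla's conjecture for the polynomials `f(T) + A`: at most scales `N`, for all but `N^(1 - c / log log N)` of the
constants `|A| ≤ N`, uniformly in the progression and in the range of the variable; `f ∈ ℤ[T]` any polynomial of
degree `d ≥ 2`

Proof (`Pool.Agent.P8H14.GL`). The exponential sum over the values `f(n)` is its major arc model with denominators
`q ≤ Q = N^(c / log log N)`, up to a power of `Q`, at all frequencies (Weyl's inequality with its inverse theorem); by
Parseval's equation this reduces the sum of `λ(f(n) + A)` to the model for all but `N / Q^κ` of the `A`. In the model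
the fractions are expanded in primitive characters. The greatest common divisor of the denominator and of the argument
of `λ` is split off; the complete sums are bounded by the number of the solutions of `f(b) + A ≡ 0` modulo the divisors
of the denominator, and these numbers are bounded on average by a power of the logarithm, uniformly in `A` (divided
differences modulo prime powers). So the loss in the model is a power of `log Q`, while the sums of `λ` twisted by all
primitive characters of conductor `≤ Q` save every power of `log N` on average at scales with zero free regions.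

From the starting files: the zero-free region inputs and the kernels (`Pool.Agent.W66`), the inverse theorem for Weyl
sums (`Pool.Agent.H373R2`), scales without exceptional characters (`Pool.Agent.TH823.PS`), the prime number theorem
(`Pool.Agent.H442R2`), `Pool.Agent.H807R2`. Of this run: scales with zero free regions (`Pool.Agent.P8H13.GK`),
primitive characters (`Pool.Agent.P8H14.QP`), the quadratic case of the circle method for primes
(`Pool.Agent.P8H14.CF`); the packages of this project are by helper7 (growth, duality, partial summation), helper5
(major arcs), helper53 (Weyl sums), helper54 (from fractions to characters), helper4 (solutions of congruences,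
translation).
-/

set_option autoImplicit false

namespace Pool.Agent.Results.MP_d639b3_nt.QuasiPowerConstantTerms

open Finset

open Classical in
/-- The property `P` holds at most scales: the set of the positive integers `N` with the property `P` has upper
logarithmic density at least `1 - ε`. Precisely, for arbitrarily large `R` the sum of `1 / N` over the `N ≤ R`
without the property is at most `ε log R`. -/
def MostScales (ε : ℝ) (P : ℕ → Prop) : Prop :=
  ∀ R₀ : ℕ, ∃ R : ℕ, R₀ ≤ R ∧ ∑ N ∈ (Icc 1 R).filter (fun N => ¬ P N), (1 : ℝ) / N ≤ ε * Real.log R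

/-- The saving `y = N ^ (c / log log N)`. -/
noncomputable def saving (c : ℝ) (N : ℕ) : ℝ := (N : ℝ) ^ (c / Real.log (Real.log N))

/-- Liouville's function at the integers, `λ(-n) = λ(n)`, with the value `0` at `0`. -/
noncomputable def liouville (n : ℤ) : ℝ := if n = 0 then 0 else (-1) ^ ArithmeticFunction.cardFactors n.natAbs

/-- The sum of `λ(f(v) + A)` over the integers `v` of the progression `{a + m t : t ∈ ℤ}` with `|v| ≤ X`. -/
noncomputable def progSum (f : Polynomial ℤ) (A : ℤ) (m : ℕ) (a : ℤ) (X : ℕ) : ℝ :=
  ∑ v ∈ (Icc (-(X : ℤ)) X).filter (fun v => (m : ℤ) ∣ v - a), liouville (f.eval v + A)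

/-- The conclusion for one polynomial `f + A`: for all progressions with a difference `m ≤ m₀` and all `X` with
`X ^ d ≤ N`, `d` the degree of `f`, the sum is at most `N ^ (1 / d) / log ^ B N` in absolute value. -/
def Good (f : Polynomial ℤ) (m₀ B N : ℕ) (A : ℤ) : Prop :=
  ∀ (m : ℕ) (a : ℤ) (X : ℕ), 1 ≤ m → m ≤ m₀ → X ^ f.natDegree ≤ N →
    |progSum f A m a X| ≤ (N : ℝ) ^ (1 / (f.natDegree : ℝ)) / Real.log N ^ B

open Classical in
/-- Let `f ∈ ℤ[T]` be a polynomial of degree `d ≥ 2`, and let `m₀`, `B` and `ε > 0` be fixed. There is a `c > 0` such
that at most scales `N`, that is on a set of `N` of upper logarithmic density at least `1 - ε`, the following holds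
with `y = N ^ (c / log log N)`: for every `M` with `N / y ≤ M ≤ N`, all but at most `M / y` of the integers `A` with
`|A| ≤ M` have the property that for all `1 ≤ m ≤ m₀`, all `a` and all `X ≤ N ^ (1 / d)` the sum of `λ(f(v) + A)` over
the integers `v ≡ a` modulo `m` with `|v| ≤ X` is at most `N ^ (1 / d) / log ^ B N` in absolute value. -/
theorem result (f : Polynomial ℤ) (hd : 2 ≤ f.natDegree) (m₀ B : ℕ) (ε : ℝ) (hε : 0 < ε) :
    ∃ c : ℝ, 0 < c ∧ MostScales ε (fun N => ∀ M : ℕ, M ≤ N → (N : ℝ) ≤ saving c N * M →
      (((Icc (-(M : ℤ)) M).filter (fun A => ¬ Good f m₀ B N A)).card : ℝ) ≤ M / saving c N) := by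
  obtain ⟨c, hc, hmost⟩ := Pool.Agent.P8H14.GL.final f hd m₀ B hε
  refine ⟨c, hc, ?_⟩
  intro R₀
  obtain ⟨R, hR, h3⟩ := hmost R₀
  refine ⟨R, hR, le_trans ?_ h3⟩
  apply sum_le_sum_of_subset_of_nonneg
  · intro N hN
    simp only [mem_filter] at hN ⊢
    refine ⟨hN.1, fun hcon => hN.2 ?_⟩
    have hN1 : 1 ≤ N := (mem_Icc.1 hN.1).1
    have hs : saving c N = Pool.Agent.P8H14.QP.sav c N := by
      unfold saving Pool.Agent.P8H14.QP.sav
      have hN0 : (0 : ℝ) < N := by exact_mod_cast hN1
      rw [Real.rpow_def_of_pos hN0]
      congr 1
      ring
    intro M hM hNM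
    rw [hs] at hNM ⊢
    exact hcon M hM hNM
  · intro _ _ _
    positivity

end Pool.Agent.Results.MP_d639b3_nt.QuasiPowerConstantTerms
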