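import Pool.Agent.P8H14.QP.E1

/-!
# Chowla's conjecture in progressions for the products `g(T) (a T + b)`, for all `b` outside a set with the saving
`N ^ (c / log log N)`, with the error `N / (log N) ^ k`, at most scales

From the starting files: the zero-free region inputs and the kernels (`Pool.Agent.W66`), the large sieve
(`Pool.Agent.Helper112`), the bounds on the minor arcs by Vaughan's identity (`Pool.Agent.W93`), the moments of
Weyl sums (`Pool.Agent.H373R2`).
New (`Pool.Agent.P8H14.QP`): the mean square of `∑ λ(n) e(n k / X)` over any `exp(c log N / log log N)` frequencies is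
smaller than `N ^ 2` by any fixed power of `log N`, at most scales.
From Mathlib: `ArithmeticFunction.cardFactors m`: the number of prime factors of `m` with multiplicity;
`Finset.Icc u v`: the integers `n` with `u ≤ n ≤ v`; `v ≡ r [ZMOD q]`: congruence modulo `q`;
`Polynomial ℤ`: the polynomials with integer coefficients; `P.eval m`: the value at `m`.
-/

set_option autoImplicit false

namespace Pool.Agent.Results.MP_d639b3_nt.QuasiPowerLinearFactor

open Finset

/-- Liouville's function on the integers: `(-1) ^ Ω(|m|)`, and `0` at `0` (as if `0` were omitted). -/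
def lam (m : ℤ) : ℤ := if m = 0 then 0 else (-1) ^ ArithmeticFunction.cardFactors m.natAbs

open Classical in
/-- The number of the elements of the finite set `S` with the property `E`. -/
noncomputable def num (S : Finset ℕ) (E : ℕ → Prop) : ℝ := ((S.filter E).card : ℝ)

open Classical in
/-- The property `P` holds at most scales: the set of the positive integers `N` with the property `P` has upper
logarithmic density at least `1 - ε`. Precisely, for arbitrarily large `R` the sum of `1 / N` over the `N ≤ R`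
without the property is at most `ε log R`. -/
def MostScales (ε : ℝ) (P : ℕ → Prop) : Prop :=
  ∀ R₀ : ℕ, ∃ R : ℕ, R₀ ≤ R ∧ ∑ N ∈ (Icc 1 R).filter (fun N => ¬ P N), (1 : ℝ) / N ≤ ε * Real.log R

/-- The saving: `sav c N = N ^ (c / log log N)`. It is larger than every fixed power of `log N`. -/
noncomputable def sav (c : ℝ) (N : ℕ) : ℝ := Real.exp (c * Real.log N / Real.log (Real.log N))

/-- The additive energy of order `p` of the family `s 1, ..., s x`: the number of the solutions of
`s (v 1) + ... + s (v p) = s (w 1) + ... + s (w p)` with all `v i`, `w i` in `{1, ..., x}`. -/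
def energy (p x : ℕ) (s : ℕ → ℤ) : ℕ :=
  (((Fintype.piFinset fun _ : Fin p => Icc 1 x) ×ˢ (Fintype.piFinset fun _ : Fin p => Icc 1 x)).filter
    (fun q => ∑ i, s (q.1 i) = ∑ i, s (q.2 i))).card

/-- The sum of `λ (F v)` over the `v` with `|v| ≤ X` and `v ≡ r mod q`. -/
noncomputable def progSum (F : ℤ → ℤ) (q : ℕ) (r : ℤ) (X : ℕ) : ℤ :=
  ∑ v ∈ (Icc (-(X : ℤ)) X).filter (fun v => v ≡ r [ZMOD q]), lam (F v)

/-- The number `b` is good for `g` at the scale `N`: for all `a ≤ y`, all progressions `r mod q` with `q ≤ y` and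
all `X` with `a X ≤ A N`, the sum of `λ (g v * (a v + b))` over the `v` in the progression with `|v| ≤ X` is at most
`N / (log N) ^ k` in absolute value. -/
def Good (A k : ℕ) (y : ℝ) (N : ℕ) (g : ℤ → ℤ) (b : ℤ) : Prop :=
  ∀ a q : ℕ, 1 ≤ a → (a : ℝ) ≤ y → 1 ≤ q → (q : ℝ) ≤ y → ∀ r : ℤ, ∀ X : ℕ, a * X ≤ A * N →
    |(progSum (fun v => g v * (a * v + b)) q r X : ℝ)| ≤ N / Real.log N ^ k

lemma most_of {ε : ℝ} {P P' : ℕ → Prop} (h : Pool.Agent.TH823.PS.Most ε P) (hPP : ∀ N, P N → P' N) :
    MostScales ε P' := by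
  classical
  have h' : MostScales ε P := h
  intro R₀
  obtain ⟨R, hR, h1⟩ := h' R₀
  refine ⟨R, hR, le_trans ?_ h1⟩
  apply sum_le_sum_of_subset_of_nonneg
  · intro N hN
    simp only [mem_filter] at hN ⊢
    exact ⟨hN.1, fun h2 => hN.2 (hPP N h2)⟩
  · intro _ _ _; positivity

lemma num_le_sum {β : Type} {S : Finset ℕ} {E : ℕ → Prop} (Es : Finset β) {F : β → ℕ → Prop}
    (h : ∀ a ∈ S, E a → ∃ e ∈ Es, F e a) : num S E ≤ ∑ e ∈ Es, num S (F e) := by
  classical
  unfold num
  rw [← Nat.cast_sum]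
  apply Nat.cast_le.2
  refine le_trans ?_ card_biUnion_le
  apply card_le_card
  intro a ha
  rw [mem_filter] at ha
  obtain ⟨e, he, hF⟩ := h a ha.1 ha.2
  rw [mem_biUnion]
  exact ⟨e, he, mem_filter.2 ⟨ha.1, hF⟩⟩

lemma lam_mul (m n : ℤ) : lam (m * n) = lam m * lam n := by
  unfold lam
  by_cases hm : m = 0
  · simp [hm]
  by_cases hn : n = 0
  · simp [hn]
  rw [if_neg (mul_ne_zero hm hn), if_neg hm, if_neg hn, Int.natAbs_mul,
    ArithmeticFunction.cardFactors_mul (Int.natAbs_ne_zero.2 hm) (Int.natAbs_ne_zero.2 hn), pow_add]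

lemma lam_abs (m : ℤ) : |lam m| ≤ 1 := by
  unfold lam
  split_ifs
  · simp
  · rw [abs_pow]; simp

lemma lam_eq (m : ℤ) : (lam m : ℂ) = Pool.Agent.TH823.PS.evI Pool.Agent.H373R2.T7.liR m := by
  unfold lam Pool.Agent.TH823.PS.evI Pool.Agent.H373R2.T7.exI Pool.Agent.H373R2.T7.liR
  rcases lt_trichotomy m 0 with h | h | h
  · rw [if_neg h.ne, if_neg (by omega), if_pos (by omega), zero_add]
    have : m.natAbs = (-m).toNat := by omega
    rw [this]
    push_cast
    rfl
  · subst h
    simp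
  · rw [if_neg h.ne', if_pos (by omega), if_neg (by omega), add_zero]
    have : m.natAbs = m.toNat := by omega
    rw [this]
    push_cast
    rfl

open Pool.Agent.P8H14.QP (FQ) in
open Pool.Agent.P8H14.QP.Len (sav_mul sav_one_le sav_log) in
/-- the count at one scale -/
lemma core_lin {A k p : ℕ} {c0 : ℝ} (hc0 : 0 < c0) {N : ℕ} (hN : 16 ≤ N) (hlog : 4 + ((3 * A : ℕ) : ℝ) ≤ Real.log N)
    (hs2 : 2 ≤ sav (c0 / 16) N) (hA : 1 ≤ A)
    (hsN : sav (c0 / 16) N ≤ N)
    (h : FQ (3 * A) p (k + 1) (sav c0 N) N) {x : ℕ} {s : ℕ → ℤ} (hs : ∀ m ∈ Icc 1 x, |s m| ≤ A * N)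
    (hE : (Pool.Agent.H373R2.T7.energy p x s : ℝ) * N ≤ sav c0 N * (x : ℝ) ^ (2 * p))
    {L : ℕ} (hL : (L : ℝ) ≤ sav (c0 / 16) N) (G : Fin L → ℤ → ℤ) :
    num (Icc 1 x) (fun m => ¬ ∀ l, Good A k (sav (c0 / 16) N) N (G l) (s m)) ≤ x / sav (c0 / 16) N := by
  classical
  have hy1 : 1 ≤ sav c0 N := sav_one_le hc0.le hN
  set y : ℝ := sav (c0 / 16) N with hy
  have hy0 : 0 < y := Real.exp_pos _
  have hl0 : 0 < Real.log N := by
    have : (0 : ℝ) ≤ ((3 * A : ℕ) : ℝ) := Nat.cast_nonneg _
    linarith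
  have hA3 : (0 : ℝ) ≤ ((3 * A : ℕ) : ℝ) := Nat.cast_nonneg _
  set M : ℕ := ⌊y⌋₊ with hM
  have hMy : (M : ℝ) ≤ y := Nat.floor_le hy0.le
  have h3 : num (Icc 1 x) (fun m => ¬ ∀ l, Good A k y N (G l) (s m)) ≤
      ∑ e ∈ (univ : Finset (Fin L)) ×ˢ ((Icc 1 M) ×ˢ ((Icc 1 M) ×ˢ (range M))),
      num (Icc 1 x) (fun m => ¬ ∀ X : ℕ, e.2.1 * X ≤ A * N →
        |(progSum (fun v => G e.1 v * (e.2.1 * v + s m)) e.2.2.1 e.2.2.2 X : ℝ)| ≤ N / Real.log N ^ k) := by
    apply num_le_sum
    intro m _ hm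
    by_contra hcon
    apply hm
    intro l a q ha haA hq hqA r X hX
    by_contra h4
    apply hcon
    refine ⟨(l, a, q, (r % q).toNat), ?_, fun h5 => h4 ?_⟩
    · rw [mem_product, mem_product, mem_product, mem_Icc, mem_Icc, mem_range]
      have haM : a ≤ M := Nat.le_floor haA
      have hqM : q ≤ M := Nat.le_floor hqA
      refine ⟨mem_univ _, ⟨ha, haM⟩, ⟨hq, hqM⟩, ?_⟩
      have := Int.emod_lt_of_pos r (by exact_mod_cast hq : (0 : ℤ) < q)
      have := Int.emod_nonneg r (by exact_mod_cast (by omega : q ≠ 0) : (q : ℤ) ≠ 0)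
      simp only
      omega
    · have h6 := h5 X hX
      have h7 : progSum (fun v => G l v * (a * v + s m)) q r X =
          progSum (fun v => G l v * (a * v + s m)) q ((r % q).toNat : ℕ) X := by
        unfold progSum
        apply sum_congr _ fun _ _ => rfl
        ext v
        rw [mem_filter, mem_filter]
        have h8 : (((r % q).toNat : ℕ) : ℤ) = r % q :=
          Int.toNat_of_nonneg (Int.emod_nonneg r (by exact_mod_cast (by omega : q ≠ 0)))
        rw [h8]
        have h9 : r % q ≡ r [ZMOD q] := Int.mod_modEq r q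
        exact ⟨fun h => ⟨h.1, h.2.trans h9.symm⟩, fun h => ⟨h.1, h.2.trans h9⟩⟩
      rw [h7]
      exact h6
  refine h3.trans ?_
  have hys : 0 < sav c0 N := Real.exp_pos _
  refine (sum_le_sum (g := fun _ => 2 * ((x : ℝ) / sav c0 N)) ?_).trans ?_
  · intro e he
    rw [mem_product, mem_product, mem_product, mem_Icc, mem_Icc] at he
    have haM : (e.2.1 : ℝ) ≤ y := le_trans (by exact_mod_cast he.2.1.2) hMy
    have haN : e.2.1 ≤ A * N := by
      have h5 : (e.2.1 : ℝ) ≤ N := haM.trans hsN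
      have h6 : e.2.1 ≤ N := by exact_mod_cast h5
      exact h6.trans (Nat.le_mul_of_pos_left _ (by omega))
    refine le_trans (le_of_eq (by unfold num; congr!)) (Pool.Agent.P8H14.QP.two_sidedQ (A' := k + 1) hN (by omega) hy1
      (by linarith) h hs hE he.2.1.1 haN
      (fun v => if v ≡ (e.2.2.2 : ℤ) [ZMOD e.2.2.1] then (lam (G e.1 v) : ℂ) else 0) ?_
      (fun m => ¬ ∀ X : ℕ, e.2.1 * X ≤ A * N →
        |(progSum (fun v => G e.1 v * (e.2.1 * v + s m)) e.2.2.1 e.2.2.2 X : ℝ)| ≤ N / Real.log N ^ k) ?_)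
    · intro v
      split_ifs
      · rw [Complex.norm_intCast]
        exact_mod_cast lam_abs _
      · simp
    · intro m hm
      push Not at hm
      obtain ⟨X, hX, h4⟩ := hm
      refine ⟨X, hX, lt_of_le_of_lt ?_ (lt_of_lt_of_eq h4 ?_)⟩
      · rw [mul_div_assoc', div_le_div_iff₀ (by positivity) (by positivity), pow_succ]
        calc 4 * (N : ℝ) * Real.log N ^ k = (N * Real.log N ^ k) * 4 := by ring
          _ ≤ (N * Real.log N ^ k) * Real.log N := by
              gcongr
              linarith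
          _ = _ := by ring
      · rw [← Complex.norm_intCast]
        congr 1
        unfold progSum
        push_cast
        rw [sum_filter]
        apply sum_congr rfl
        intro v _
        split_ifs
        · rw [lam_mul]
          push_cast
          rw [← lam_eq]
        · simp
  · rw [sum_const, nsmul_eq_mul]
    have h4 : ((((univ : Finset (Fin L)) ×ˢ ((Icc 1 M) ×ˢ ((Icc 1 M) ×ˢ (range M)))).card : ℕ) : ℝ) ≤
        y * (y * (y * y)) := by
      rw [card_product, card_product, card_product, Nat.card_Icc, card_range, Nat.add_sub_cancel, card_univ,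
        Fintype.card_fin]
      push_cast
      gcongr
    have h5 : y * (y * (y * y)) * (y * y) ≤ sav c0 N := by
      have e1 : y * y = sav (c0 / 8) N := by
        rw [hy]
        have := sav_mul (c0 / 16) (c0 / 16) N
        refine this.trans ?_
        unfold Pool.Agent.P8H14.QP.sav sav
        congr 2
        ring
      have e2 : y * (y * (y * y)) = sav (c0 / 4) N := by
        have h6 : y * (y * (y * y)) = (y * y) * (y * y) := by ring
        rw [h6, e1]
        have := sav_mul (c0 / 8) (c0 / 8) N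
        refine this.trans ?_
        unfold Pool.Agent.P8H14.QP.sav sav
        congr 2
        ring
      rw [e2, e1]
      have := sav_mul (c0 / 4) (c0 / 8) N
      refine (le_of_eq this).trans ?_
      exact Pool.Agent.P8H14.QP.sav_mono (by linarith) hN
    calc _ ≤ y * (y * (y * y)) * (2 * ((x : ℝ) / sav c0 N)) := by gcongr
      _ = (y * (y * (y * y)) * (2 * y)) * x / sav c0 N / y := by field_simp
      _ ≤ (y * (y * (y * y)) * (y * y)) * x / sav c0 N / y := by gcongr
      _ ≤ sav c0 N * x / sav c0 N / y := by gcongr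
      _ = x / y := by field_simp

lemma good_anti {A A' k : ℕ} (hA : A ≤ A') {y : ℝ} {N : ℕ} {g : ℤ → ℤ} {b : ℤ} {y' : ℝ} (hy : y' ≤ y)
    (h : Good A' k y N g b) : Good A k y' N g b := by
  intro a q ha hay hq hqy r X hX
  exact h a q ha (hay.trans hy) hq (hqy.trans hy) r X (hX.trans (Nat.mul_le_mul_right _ hA))

lemma num_mono {S : Finset ℕ} {E F : ℕ → Prop} (h : ∀ m ∈ S, E m → F m) : num S E ≤ num S F := by
  classical
  unfold num
  apply Nat.cast_le.2
  apply card_le_card
  intro m hm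
  rw [mem_filter] at hm ⊢
  exact ⟨hm.1, h m hm.1 hm.2⟩

/-- Let `P` be a nonconstant integer polynomial of degree `d` (e.g. `T`), `A`, `k`, `p ≥ 1` and `ε > 0`. There is a
`c > 0` such that at most scales `N`, that is on a set of `N` of upper logarithmic density at least `1 - ε`, the
following holds, with `y = N ^ (c / log log N)`, for any at most `y` polynomials (even arbitrary functions)
`g 1, ..., g L : ℤ → ℤ`.

* For all `x` with `N / y ≤ x ^ d ≤ A N` and all `b₀` in `[-A N, A N]`: for all but `x / y` of the `m ≤ x`, the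
  number `b = b₀ + P m` satisfies `|∑ λ (g v * (a v + b))| ≤ N / (log N) ^ k`, the sum over the `v ≡ r mod q` with
  `|v| ≤ X`, for all `a ≤ y`, `q ≤ y`, `r`, all `X` with `a X ≤ A N` and all the `g = g l`.
* The same for all but `x / y` of the members `b` of an arbitrary family `s 1, ..., s x` of integers in `[-A N, A N]`
  whose additive energy of order `p` is at most `y x ^ (2 p) / N`. -/
theorem result (A k p : ℕ) (hA : 1 ≤ A) (hp : 1 ≤ p) (P : Polynomial ℤ) (hP : 1 ≤ P.natDegree) (ε : ℝ) (hε : 0 < ε) :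
    ∃ c : ℝ, 0 < c ∧ MostScales ε (fun N => ∀ L : ℕ, (L : ℝ) ≤ sav c N → ∀ g : Fin L → ℤ → ℤ,
      (∀ x : ℕ, x ^ P.natDegree ≤ A * N → (N : ℝ) ≤ sav c N * (x : ℝ) ^ P.natDegree → ∀ b₀ : ℤ, |b₀| ≤ A * N →
        num (Icc 1 x) (fun m => ¬ ∀ l, Good A k (sav c N) N (g l) (b₀ + P.eval (m : ℤ))) ≤ x / sav c N) ∧
      (∀ (x : ℕ) (s : ℕ → ℤ), (∀ m ∈ Icc 1 x, |s m| ≤ A * N) →
        (energy p x s : ℝ) * N ≤ sav c N * (x : ℝ) ^ (2 * p) →
        num (Icc 1 x) (fun m => ¬ ∀ l, Good A k (sav c N) N (g l) (s m)) ≤ x / sav c N)) := by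
  classical
  obtain ⟨p0, C1, hC1, h1⟩ := Pool.Agent.TH823.Fam.energy_poly' P hP
  obtain ⟨A0, hA0⟩ := Pool.Agent.TH823.Fam.poly_size P
  set A1 : ℕ := A + A0 * A + 1 with hA1
  obtain ⟨c0, hc0, hM⟩ := Pool.Agent.P8H14.QP.most_FQs (ι := Bool) (fun _ => 3 * A1)
    (fun i => if i then p0 + 1 else p) (k + 1) (fun _ => by omega) (fun i => by
      by_cases hi : i
      · simp [hi]
      · simp [hi, hp]) (ε := ε) hε
  obtain ⟨N1, -, hN1⟩ := Pool.Agent.P8H14.QP.sav_large (c := c0 / 16) (by positivity) (2 + |C1|)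
  obtain ⟨N2, hN2⟩ := Pool.Agent.P8H14.QP.log_ev (4 + ((3 * A1 : ℕ) : ℝ))
  obtain ⟨N3, hN3⟩ := Pool.Agent.P8H14.QP.log_ev (Real.exp (c0 / 16))
  refine ⟨c0 / 16, by positivity, most_of (hM (N1 + N2 + N3 + 16)) fun N hN => ?_⟩
  obtain ⟨hNN, hG⟩ := hN
  have hN16 : 16 ≤ N := by omega
  have hNr : (16 : ℝ) ≤ N := by exact_mod_cast hN16
  have hN0 : (0 : ℝ) < N := by linarith
  have hlog := hN2 N (by omega)
  have hs2' := hN1 N (by omega)
  have hs2 : 2 ≤ sav (c0 / 16) N := le_trans (by linarith [abs_nonneg C1]) hs2'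
  have hllN : c0 / 16 ≤ Real.log (Real.log N) := by
    rw [Real.le_log_iff_exp_le (lt_of_lt_of_le (Real.exp_pos _) (hN3 N (by omega)))]
    exact hN3 N (by omega)
  have hsN : sav (c0 / 16) N ≤ N := by
    unfold sav
    have h2 : c0 / 16 * Real.log N / Real.log (Real.log N) ≤ Real.log N := by
      rw [div_le_iff₀ (by linarith : 0 < Real.log (Real.log N)), mul_comm]
      apply mul_le_mul_of_nonneg_left hllN
      have : (0 : ℝ) ≤ ((3 * A1 : ℕ) : ℝ) := Nat.cast_nonneg _
      linarith
    calc Real.exp (c0 / 16 * Real.log N / Real.log (Real.log N)) ≤ Real.exp (Real.log N) := Real.exp_le_exp.2 h2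
      _ = N := Real.exp_log hN0
  have hG1 := hG true
  have hG2 := hG false
  simp only [if_true] at hG1
  simp only [Bool.false_eq_true, if_false] at hG2
  have hyy : sav (c0 / 16) N * sav (c0 / 16) N ≤ sav c0 N := by
    refine (le_of_eq (Pool.Agent.P8H14.QP.Len.sav_mul (c0 / 16) (c0 / 16) N)).trans ?_
    exact Pool.Agent.P8H14.QP.sav_mono (by linarith) hN16
  have hsp : 0 < sav (c0 / 16) N := Real.exp_pos _
  have hy1 : sav (c0 / 16) N ≤ sav c0 N := Pool.Agent.P8H14.QP.sav_mono (by linarith) hN16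
  have hA1z : (A : ℤ) ≤ A1 := by exact_mod_cast (by omega : A ≤ A1)
  have hNz : (0 : ℤ) ≤ N := Int.natCast_nonneg N
  intro L hL g
  refine ⟨?_, ?_⟩
  · intro x hx1 hx2 b₀ hb₀
    have hx : 1 ≤ x := by
      by_contra hcon
      have : x = 0 := by omega
      subst this
      rw [Nat.cast_zero, zero_pow (by omega), mul_zero] at hx2
      linarith
    have hx0 : (0 : ℝ) < x := by exact_mod_cast hx
    refine (num_mono ?_).trans (core_lin (A := A1) (p := p0 + 1) (s := fun m => b₀ + P.eval (m : ℤ)) hc0 hN16 hlog hs2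
      (by omega) hsN hG1 ?_ ?_ hL g)
    · intro m _ hm hcon
      exact hm fun l => good_anti (by omega) le_rfl (hcon l)
    · intro m hm
      refine (abs_add_le _ _).trans ?_
      have h3 := hA0 x hx m hm
      have h4 : (x : ℤ) ^ P.natDegree ≤ A * N := by exact_mod_cast hx1
      calc |b₀| + |Polynomial.eval (m : ℤ) P| ≤ A * N + A0 * (A * N) := by
            apply add_le_add hb₀ (h3.trans _)
            exact mul_le_mul_of_nonneg_left h4 (by positivity)
        _ ≤ (A + A0 * A + 1) * N := by linarith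
    · have h3 := h1 x hx b₀
      have h4 := Pool.Agent.TH823.PS.energy_mono (Nat.le_succ p0) x (fun m => b₀ + P.eval (m : ℤ))
      have h5 : 2 * (p0.succ - p0) = 2 := by omega
      rw [h5] at h4
      have h6 : (x : ℝ) ^ (2 * (p0 + 1)) = (x : ℝ) ^ 2 * (x : ℝ) ^ (2 * p0) := by
        rw [← pow_add]; congr 1; ring
      have hC1' : C1 ≤ sav (c0 / 16) N := by
        have := le_abs_self C1
        exact le_trans (by linarith) hs2'
      calc (Pool.Agent.H373R2.T7.energy (p0 + 1) x (fun m => b₀ + P.eval (m : ℤ)) : ℝ) * N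
          ≤ ((x : ℝ) ^ 2 * Pool.Agent.H373R2.T7.energy p0 x (fun m => b₀ + P.eval (m : ℤ))) *
              (sav (c0 / 16) N * (x : ℝ) ^ P.natDegree) := by
            apply mul_le_mul h4 hx2 (Nat.cast_nonneg _) (by positivity)
        _ = (x : ℝ) ^ 2 * sav (c0 / 16) N * ((Pool.Agent.H373R2.T7.energy p0 x (fun m => b₀ + P.eval (m : ℤ)) : ℝ) *
              (x : ℝ) ^ P.natDegree) := by ring
        _ ≤ (x : ℝ) ^ 2 * sav (c0 / 16) N * (C1 * (x : ℝ) ^ (2 * p0)) := mul_le_mul_of_nonneg_left h3 (by positivity)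
        _ ≤ (x : ℝ) ^ 2 * sav (c0 / 16) N * (sav (c0 / 16) N * (x : ℝ) ^ (2 * p0)) := by gcongr
        _ = (sav (c0 / 16) N * sav (c0 / 16) N) * (x : ℝ) ^ (2 * (p0 + 1)) := by rw [h6]; ring
        _ ≤ _ := by gcongr
  · intro x s hs hE
    refine (num_mono ?_).trans (core_lin (A := A1) (p := p) (s := s) hc0 hN16 hlog hs2
      (by omega) hsN hG2 ?_ ?_ hL g)
    · intro m _ hm hcon
      exact hm fun l => good_anti (by omega) le_rfl (hcon l)
    · intro m hm
      refine (hs m hm).trans ?_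
      exact mul_le_mul_of_nonneg_right hA1z hNz
    · refine le_trans hE ?_
      gcongr

end Pool.Agent.Results.MP_d639b3_nt.QuasiPowerLinearFactor
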